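import Mathlib

namespace Pool.Agent.H.MP_a87542_al

open Matrix

universe u

/-- Square matrices of all finite sizes. -/
abbrev Mat (R : Type u) : Type u := Σ n : ℕ, Matrix (Fin n) (Fin n) R

/-- Block diagonal sum. -/
def bsum {R : Type u} [Zero R] (e f : Mat R) : Mat R :=
  ⟨e.1 + f.1, (fromBlocks e.2 0 0 f.2).submatrix finSumFinEquiv.symm finSumFinEquiv.symm⟩

/-- Entrywise image. -/
def mmap {R S : Type u} (φ : R → S) (e : Mat R) : Mat S := ⟨e.1, e.2.map φ⟩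

def Idem {R : Type u} [NonUnitalRing R] (e : Mat R) : Prop := e.2 * e.2 = e.2

def AlgEq {R : Type u} [NonUnitalRing R] (e f : Mat R) : Prop :=
  ∃ (x : Matrix (Fin e.1) (Fin f.1) R) (y : Matrix (Fin f.1) (Fin e.1) R),
    e.2 = x * y ∧ f.2 = y * x

def Proj {A : Type u} [NonUnitalRing A] [Star A] (e : Mat A) : Prop :=
  e.2 * e.2 = e.2 ∧ e.2ᴴ = e.2

def MvN {A : Type u} [NonUnitalRing A] [Star A] (e f : Mat A) : Prop :=
  ∃ v : Matrix (Fin f.1) (Fin e.1) A, e.2 = vᴴ * v ∧ f.2 = v * vᴴ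

/-- `c` induces an isomorphism from the monoid of `E`-classes of `I`-matrices onto `M`. -/
def IsV {R : Type u} [Zero R] {M : Type} [Add M] (I : Mat R → Prop) (E : Mat R → Mat R → Prop)
    (c : Mat R → M) : Prop :=
  (∀ m, ∃ e, I e ∧ c e = m) ∧
    ∀ e f, I e → I f → (c e = c f ↔ E e f) ∧ c (bsum e f) = c e + c f

/-- Functoriality of a family of maps indexed by the arrows of a preorder. -/
def Funct {P : Type} [Preorder P] {X : P → Type u} (φ : ∀ p q, p ≤ q → X p → X q) : Prop :=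
  (∀ p x, φ p p le_rfl x = x) ∧
    ∀ p q r (h : p ≤ q) (k : q ≤ r) x, φ q r k (φ p q h x) = φ p r (h.trans k) x

/-- Real rank zero. -/
def RR0 (A : Type u) [NonUnitalCStarAlgebra A] : Prop :=
  ∀ x : Unitization ℂ A, IsSelfAdjoint x → ∀ ε > 0,
    ∃ y : Unitization ℂ A, IsSelfAdjoint y ∧ IsUnit y ∧ ‖x - y‖ < ε

def LiftsReg {P : Type} [Preorder P] {n : P → ℕ}
    (μ : ∀ p q, p ≤ q → (Fin (n p) → ℕ) →+ (Fin (n q) → ℕ)) : Prop :=
  ∃ (R : P → Type) (_ : ∀ p, Ring (R p)) (φ : ∀ p q, p ≤ q → R p →+* R q)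
    (c : ∀ p, Mat (R p) → Fin (n p) → ℕ),
    (∀ p (x : R p), ∃ y, x * y * x = x) ∧ Funct (fun p q h => (φ p q h : R p → R q)) ∧
    (∀ p, IsV Idem AlgEq (c p)) ∧
    ∀ p q h e, Idem e → c q (mmap (φ p q h) e) = μ p q h (c p e)

def LiftsRR0 {P : Type} [Preorder P] {n : P → ℕ}
    (μ : ∀ p q, p ≤ q → (Fin (n p) → ℕ) →+ (Fin (n q) → ℕ)) : Prop :=
  ∃ (A : P → Type u) (_ : ∀ p, NonUnitalCStarAlgebra (A p)) (φ : ∀ p q, p ≤ q → A p →⋆ₙₐ[ℂ] A q)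
    (c : ∀ p, Mat (A p) → Fin (n p) → ℕ),
    (∀ p, RR0 (A p)) ∧ Funct (fun p q h => (φ p q h : A p → A q)) ∧
    (∀ p, IsV Proj MvN (c p)) ∧
    ∀ p q h e, Proj e → c q (mmap (φ p q h) e) = μ p q h (c p e)

end Pool.Agent.H.MP_a87542_al
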