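import Mathlib
import Pool.Agent.H.MP_a87542_al.D

namespace Pool.Agent.H.MP_a87542_al

open Matrix

section field
variable {K : Type*} [Field K] {ι κ : Type*} [Fintype ι] [Fintype κ] [DecidableEq ι] [DecidableEq κ]

theorem exreg (e : Matrix ι ι K) : ∃ y, e * y * e = e := by
  set f := Matrix.toLin' e
  obtain ⟨s, hs⟩ := f.rangeRestrict.exists_rightInverse_of_surjective f.range_rangeRestrict
  obtain ⟨t, ht⟩ := (LinearMap.range f).subtype.exists_leftInverse_of_injective
    (Submodule.ker_subtype _)
  refine ⟨LinearMap.toMatrix' (s ∘ₗ t), ?_⟩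
  apply Matrix.toLin'.injective
  rw [Matrix.toLin'_mul, Matrix.toLin'_mul, Matrix.toLin'_toMatrix']
  refine LinearMap.ext fun v => ?_
  have h1 := LinearMap.congr_fun ht (f.rangeRestrict v)
  have h2 := LinearMap.congr_fun hs (f.rangeRestrict v)
  simp only [LinearMap.comp_apply, LinearMap.id_apply] at h1 h2 ⊢
  have h3 : t (f v) = f.rangeRestrict v := h1
  change f (s (t (f v))) = f v
  rw [h3]
  exact congrArg Subtype.val h2

theorem rank_iff (e : Matrix ι ι K) (f : Matrix κ κ K) (he : e * e = e) (hf : f * f = f) :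
    e.rank = f.rank ↔ ∃ (x : Matrix ι κ K) (y : Matrix κ ι K), e = x * y ∧ f = y * x := by
  constructor
  · intro h
    set a := Matrix.toLin' e with ha
    set b := Matrix.toLin' f with hb
    have haa : ∀ v, a (a v) = a v := fun v => by
      have := congrArg Matrix.toLin' he
      rw [Matrix.toLin'_mul] at this
      exact LinearMap.congr_fun this v
    have hbb : ∀ v, b (b v) = b v := fun v => by
      have := congrArg Matrix.toLin' hf
      rw [Matrix.toLin'_mul] at this
      exact LinearMap.congr_fun this v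
    have h' : Module.finrank K (LinearMap.range a) = Module.finrank K (LinearMap.range b) := h
    obtain ⟨ψ⟩ := FiniteDimensional.nonempty_linearEquiv_of_finrank_eq h'
    refine ⟨LinearMap.toMatrix' ((LinearMap.range a).subtype ∘ₗ ψ.symm.toLinearMap ∘ₗ
      b.rangeRestrict), LinearMap.toMatrix' ((LinearMap.range b).subtype ∘ₗ ψ.toLinearMap ∘ₗ
      a.rangeRestrict), ?_, ?_⟩
    · apply Matrix.toLin'.injective
      rw [Matrix.toLin'_mul, Matrix.toLin'_toMatrix', Matrix.toLin'_toMatrix']
      refine LinearMap.ext fun v => ?_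
      have : b.rangeRestrict (ψ (a.rangeRestrict v) : κ → K) = ψ (a.rangeRestrict v) := by
        obtain ⟨w, hw⟩ := (ψ (a.rangeRestrict v)).2
        apply Subtype.ext
        change b _ = _
        rw [← hw, hbb]
      simp only [LinearMap.comp_apply, Submodule.subtype_apply, LinearEquiv.coe_coe]
      rw [this, LinearEquiv.symm_apply_apply]
      rfl
    · apply Matrix.toLin'.injective
      rw [Matrix.toLin'_mul, Matrix.toLin'_toMatrix', Matrix.toLin'_toMatrix']
      refine LinearMap.ext fun v => ?_
      have : a.rangeRestrict (ψ.symm (b.rangeRestrict v) : ι → K) = ψ.symm (b.rangeRestrict v) := by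
        obtain ⟨w, hw⟩ := (ψ.symm (b.rangeRestrict v)).2
        apply Subtype.ext
        change a _ = _
        rw [← hw, haa]
      simp only [LinearMap.comp_apply, Submodule.subtype_apply, LinearEquiv.coe_coe]
      rw [this, LinearEquiv.apply_symm_apply]
      rfl
  · rintro ⟨x, y, rfl, rfl⟩
    apply le_antisymm
    · calc (x * y).rank = (x * (y * x) * y).rank := by
            conv_lhs => rw [← he]
            simp only [Matrix.mul_assoc]
        _ ≤ (x * (y * x)).rank := rank_mul_le_left _ _
        _ ≤ _ := rank_mul_le_right _ _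
    · calc (y * x).rank = (y * (x * y) * x).rank := by
            conv_lhs => rw [← hf]
            simp only [Matrix.mul_assoc]
        _ ≤ (y * (x * y)).rank := rank_mul_le_left _ _
        _ ≤ _ := rank_mul_le_right _ _

theorem rank_blocks (e : Matrix ι ι K) (f : Matrix κ κ K) :
    (fromBlocks e 0 0 f).rank = e.rank + f.rank := by
  have h : Matrix.toLin' (fromBlocks e 0 0 f) =
      (LinearEquiv.sumArrowLequivProdArrow ι κ K K).symm.toLinearMap ∘ₗ
        (LinearMap.prodMap (Matrix.toLin' e) (Matrix.toLin' f)) ∘ₗ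
        (LinearEquiv.sumArrowLequivProdArrow ι κ K K).toLinearMap := by
    refine LinearMap.ext fun v => ?_
    funext i
    rcases i with i | i <;>
      simp [Matrix.toLin'_apply, fromBlocks_mulVec, LinearEquiv.sumArrowLequivProdArrow,
        Equiv.sumArrowEquivProdArrow, Function.comp_def]
  change Module.finrank K (LinearMap.range (Matrix.toLin' (fromBlocks e 0 0 f))) =
    Module.finrank K (LinearMap.range (Matrix.toLin' e)) +
    Module.finrank K (LinearMap.range (Matrix.toLin' f))
  rw [h, LinearMap.range_comp, LinearEquiv.finrank_map_eq, LinearMap.range_comp_of_range_eq_top _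
    (LinearEquiv.range _), LinearMap.range_prodMap, ← Module.finrank_prod]
  refine LinearEquiv.finrank_eq
    { toFun := fun x => (⟨x.1.1, x.2.1⟩, ⟨x.1.2, x.2.2⟩)
      invFun := fun x => ⟨(x.1.1, x.2.1), x.1.2, x.2.2⟩
      map_add' := fun _ _ => rfl
      map_smul' := fun _ _ => rfl
      left_inv := fun _ => rfl
      right_inv := fun _ => rfl }

end field

section U
variable {R : Type} [Ring R] {k : ℕ} {K : Fin k → Type} [∀ i, Field (K i)] {d : ℕ}

/-- flatten -/
def fl {L : Type} {m n : Type} (π : R → Matrix (Fin d) (Fin d) L) (e : Matrix m n R) :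
    Matrix (m × Fin d) (n × Fin d) L := Matrix.of fun a b => π (e a.1 b.1) a.2 b.2

theorem fl_mul {L : Type} [Field L] {l m n : Type} [Fintype m]
    (π : R →+* Matrix (Fin d) (Fin d) L) (x : Matrix l m R) (y : Matrix m n R) :
    fl π (x * y) = fl π x * fl π y := by
  ext a b
  simp [fl, Matrix.mul_apply, Fintype.sum_prod_type, map_sum, Matrix.sum_apply]

theorem isV_U (π : ∀ i, R →+* Matrix (Fin (d + 1)) (Fin (d + 1)) (K i))
    (hinj : ∀ x y, (∀ i, π i x = π i y) → x = y)
    (hsurj : ∀ z : ∀ i, Matrix (Fin (d + 1)) (Fin (d + 1)) (K i), ∃ x, ∀ i, π i x = z i) :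
    IsV Idem AlgEq (fun (e : Mat R) (i : Fin k) => (fl (π i) e.2).rank) := by
  classical
  have hinj' : ∀ {m n : Type} (x y : Matrix m n R), (∀ i, fl (π i) x = fl (π i) y) → x = y := by
    intro m n x y h
    ext a b
    refine hinj _ _ fun i => ?_
    ext s t
    exact congrFun (congrFun (h i) (a, s)) (b, t)
  have hsurj' : ∀ {m n : Type} (z : ∀ i, Matrix (m × Fin (d + 1)) (n × Fin (d + 1)) (K i)),
      ∃ x : Matrix m n R, ∀ i, fl (π i) x = z i := by
    intro m n z
    choose x hx using fun a b => hsurj fun i => Matrix.of fun s t => z i (a, s) (b, t)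
    refine ⟨Matrix.of x, fun i => ?_⟩
    ext a b
    simp [fl, hx]
  refine ⟨fun m => ?_, fun e f he hf => ⟨?_, ?_⟩⟩
  · obtain ⟨x, hx⟩ := hsurj' (m := Fin (∑ i, m i)) (n := Fin (∑ i, m i))
      fun i => Matrix.diagonal fun a => if a.1.1 < m i ∧ a.2 = 0 then 1 else 0
    refine ⟨⟨_, x⟩, ?_, ?_⟩
    · refine hinj' _ _ fun i => ?_
      rw [fl_mul, hx, diagonal_mul_diagonal]
      congr 1
      funext a
      split_ifs <;> simp
    · funext i
      dsimp only
      rw [hx, rank_diagonal]
      have hm : m i ≤ ∑ i, m i := Finset.single_le_sum (fun _ _ => Nat.zero_le _) (Finset.mem_univ i)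
      rw [← Fintype.card_fin (m i)]
      refine Fintype.card_congr
        { toFun := fun a => ⟨a.1.1.1, by
            have := a.2
            by_contra h
            simp [h] at this⟩
          invFun := fun a => ⟨(⟨a.1, lt_of_lt_of_le a.2 hm⟩, 0), by simp⟩
          left_inv := fun a => ?_
          right_inv := fun a => rfl }
      have := a.2
      apply Subtype.ext
      refine Prod.ext rfl ?_
      by_contra h
      simp [Ne.symm h] at this
  · have hi : ∀ (g : Mat R), Idem g → ∀ i, fl (π i) g.2 * fl (π i) g.2 = fl (π i) g.2 :=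
      fun g hg i => by rw [← fl_mul, hg]
    constructor
    · intro h
      choose x y hx hy using fun i => (rank_iff _ _ (hi e he i) (hi f hf i)).1 (congrFun h i)
      obtain ⟨X, hX⟩ := hsurj' x
      obtain ⟨Y, hY⟩ := hsurj' y
      refine ⟨X, Y, hinj' _ _ fun i => ?_, hinj' _ _ fun i => ?_⟩
      · rw [fl_mul, hX, hY, hx]
      · rw [fl_mul, hX, hY, hy]
    · rintro ⟨x, y, hx, hy⟩
      funext i
      refine (rank_iff _ _ (hi e he i) (hi f hf i)).2 ⟨fl (π i) x, fl (π i) y, ?_, ?_⟩
      · rw [← fl_mul, hx]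
      · rw [← fl_mul, hy]
  · funext i
    simp only [Pi.add_apply]
    rw [← rank_blocks]
    let ε : Fin (e.1 + f.1) × Fin (d + 1) ≃ (Fin e.1 × Fin (d + 1)) ⊕ (Fin f.1 × Fin (d + 1)) :=
      (Equiv.prodCongr finSumFinEquiv.symm (Equiv.refl _)).trans (Equiv.sumProdDistrib _ _ _)
    rw [← rank_submatrix _ ε ε]
    change (fl (π i) ((fromBlocks e.2 0 0 f.2).submatrix finSumFinEquiv.symm
      finSumFinEquiv.symm : Matrix (Fin (e.1 + f.1)) (Fin (e.1 + f.1)) R)).rank = _
    congr 1
    ext ⟨a, s⟩ ⟨b, t⟩
    obtain ⟨a, rfl⟩ := finSumFinEquiv.surjective a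
    obtain ⟨b, rfl⟩ := finSumFinEquiv.surjective b
    rcases a with a | a <;> rcases b with b | b <;>
      simp only [fl, ε, Matrix.of_apply, submatrix_apply, Equiv.symm_apply_apply,
        Equiv.trans_apply, Equiv.prodCongr_apply, Prod.map, Equiv.refl_apply] <;> simp

end U

end Pool.Agent.H.MP_a87542_al
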