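import Mathlib
import Pool.Agent.H.MP_a87542_al.A

namespace Pool.Agent.H.MP_a87542_al

open Matrix

/-- one by one matrix -/
def one {R : Type} (a : R) : Mat R := ⟨1, Matrix.of fun _ _ => a⟩

theorem exV_bool (R : Type) [Ring R] [Finite R] (h : ∀ x : R, x * x = x) :
    ∃ (n : ℕ) (c : Mat R → Fin n → ℕ), IsV Idem AlgEq c ∧
      ∀ a b : R, a * b = 0 → ∀ i, c (one a) i = 0 ∨ c (one b) i = 0 := by
  classical
  let B : BooleanRing R := { (inferInstance : Ring R) with isIdempotentElem := h }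
  let C : CommRing R := { (inferInstance : Ring R) with
    mul_comm := (inferInstance : CommRing R).mul_comm }
  have : IsReduced R := ⟨fun x hx => by
    obtain ⟨n, hn⟩ := hx
    have : x ^ (n + 1) = x := IsIdempotentElem.pow_succ_eq n (h x)
    rw [← this, pow_succ, hn, zero_mul]⟩
  let ε := (Finite.equivFin (MaximalSpectrum R)).symm
  let F : ∀ i, Field (R ⧸ (ε i).asIdeal) := fun i => Ideal.Quotient.field _
  let π : ∀ i, R →+* Matrix (Fin (0 + 1)) (Fin (0 + 1)) (R ⧸ (ε i).asIdeal) := fun i =>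
    (Matrix.scalar _).comp (Ideal.Quotient.mk _)
  refine ⟨_, _, isV_U π ?_ ?_, ?_⟩
  · intro x y hxy
    apply (IsArtinianRing.equivPi R).injective
    funext m
    obtain ⟨i, rfl⟩ := ε.surjective m
    have := congrFun (congrFun (hxy i) 0) 0
    simpa [π] using this
  · intro z
    obtain ⟨x, hx⟩ := Ideal.pi_quotient_surjective (I := fun i => (ε i).asIdeal)
      (fun i j hij => (ε i).isCoprime_of_ne (ε.injective.ne hij)) fun i => z i 0 0
    refine ⟨x, fun i => ?_⟩
    ext s t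
    obtain rfl : s = 0 := Subsingleton.elim (α := Fin 1) _ _
    obtain rfl : t = 0 := Subsingleton.elim (α := Fin 1) _ _
    simpa [π] using hx i
  · intro a b hab i
    have : Ideal.Quotient.mk (ε i).asIdeal a * Ideal.Quotient.mk (ε i).asIdeal b = 0 := by
      rw [← map_mul, hab, map_zero]
    have key : ∀ a : R, Ideal.Quotient.mk (ε i).asIdeal a = 0 → (fl (π i) (one a).2).rank = 0 := by
      intro a h0
      have : fl (π i) (one a).2 = 0 := by
        ext s t
        change π i a s.2 t.2 = 0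
        simp [π, h0]
      simp only [this, rank_zero]
    exact (mul_eq_zero.1 this).imp (key a) (key b)

abbrev T := Matrix (Fin 3) (Fin 3) (ZMod 2)

theorem exV_top : ∃ (n : ℕ) (c : Mat (⊤ : Subring T) → Fin n → ℕ), IsV Idem AlgEq c := by
  have : Fact (Nat.Prime 2) := ⟨Nat.prime_two⟩
  refine ⟨1, _, isV_U (K := fun _ => ZMod 2) (d := 2) (fun _ => (⊤ : Subring T).subtype) ?_ ?_⟩
  · intro x y h
    exact Subtype.ext (h 0)
  · intro z
    exact ⟨⟨z 0, trivial⟩, fun i => by rw [Subsingleton.elim i 0]; rfl⟩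

def Bo (S : Subring T) : Prop := ∀ x ∈ S, x * x = x

def P : Type := {S : Subring T // Bo S ∨ S = ⊤}

instance : PartialOrder P := inferInstanceAs (PartialOrder {S : Subring T // Bo S ∨ S = ⊤})

instance : Finite P := by
  have : Finite (Subring T) := Finite.of_injective (fun S : Subring T => (S : Set T))
    SetLike.coe_injective
  exact inferInstanceAs (Finite {S : Subring T // Bo S ∨ S = ⊤})

noncomputable instance : InfSet P := ⟨fun s => ⟨⨅ p ∈ s, p.1, by
  by_cases h : ∃ p ∈ s, Bo p.1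
  · obtain ⟨p, hp, hb⟩ := h
    exact Or.inl fun x hx => hb x ((biInf_le (fun p : P => p.1) hp) hx)
  · right
    simp only [iInf_eq_top]
    intro p hp
    exact p.2.resolve_left fun hb => h ⟨p, hp, hb⟩⟩⟩

@[reducible] noncomputable def latP : CompleteLattice P := completeLatticeOfInf P fun s =>
  ⟨fun _ hp => biInf_le (fun p : P => p.1) hp, fun _ hq => le_iInf₂ (f := fun (p : P) (_ : p ∈ s) => p.1) fun _ hp => hq hp⟩

theorem exV (S : P) : ∃ (n : ℕ) (c : Mat S.1 → Fin n → ℕ), IsV Idem AlgEq c ∧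
    (Bo S.1 → ∀ a b : S.1, a * b = 0 → ∀ i, c (one a) i = 0 ∨ c (one b) i = 0) := by
  by_cases h : Bo S.1
  · obtain ⟨n, c, h1, h2⟩ := exV_bool S.1 fun x => Subtype.ext (h x.1 x.2)
    exact ⟨n, c, h1, fun _ => h2⟩
  · obtain ⟨S, hS⟩ := S
    obtain rfl := hS.resolve_left h
    obtain ⟨n, c, h1⟩ := exV_top
    exact ⟨n, c, h1, fun h' => (h h').elim⟩

theorem regP (S : P) (x : S.1) : ∃ y, x * y * x = x := by
  obtain ⟨S, hS | rfl⟩ := S
  · have : x * x = x := Subtype.ext (hS x.1 x.2)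
    exact ⟨x, by rw [this, this]⟩
  · have : Fact (Nat.Prime 2) := ⟨Nat.prime_two⟩
    obtain ⟨y, hy⟩ := exreg (K := ZMod 2) x.1
    exact ⟨⟨y, trivial⟩, Subtype.ext hy⟩

section mu
variable {R S : Type} [Ring R] [Ring S]

theorem Idem.map (φ : R →+* S) {e : Mat R} (h : Idem e) : Idem (mmap φ e) := by
  change e.2.map φ * e.2.map φ = e.2.map φ
  rw [← Matrix.map_mul, h]

theorem AlgEq.map (φ : R →+* S) {e f : Mat R} (h : AlgEq e f) : AlgEq (mmap φ e) (mmap φ f) := by
  obtain ⟨x, y, hx, hy⟩ := h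
  refine ⟨x.map φ, y.map φ, ?_, ?_⟩
  · change e.2.map φ = x.map φ * y.map φ
    rw [← Matrix.map_mul, hx]
  · change f.2.map φ = y.map φ * x.map φ
    rw [← Matrix.map_mul, hy]

theorem Idem.bsum {e f : Mat R} (he : Idem e) (hf : Idem f) : Idem (bsum e f) := by
  change ((fromBlocks e.2 0 0 f.2).submatrix finSumFinEquiv.symm finSumFinEquiv.symm :
    Matrix (Fin (e.1 + f.1)) (Fin (e.1 + f.1)) R) *
    (fromBlocks e.2 0 0 f.2).submatrix finSumFinEquiv.symm finSumFinEquiv.symm =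
    (fromBlocks e.2 0 0 f.2).submatrix finSumFinEquiv.symm finSumFinEquiv.symm
  rw [submatrix_mul_equiv, fromBlocks_multiply, he, hf]
  simp

theorem mmap_bsum (φ : R →+* S) (e f : Mat R) :
    mmap φ (bsum e f) = bsum (mmap φ e) (mmap φ f) := by
  simp only [mmap, bsum]
  congr 1
  rw [← submatrix_map, fromBlocks_map]
  simp only [Matrix.map_zero _ (map_zero φ)]
  rfl

theorem exmu {m n : ℕ} {c : Mat R → Fin m → ℕ} {d : Mat S → Fin n → ℕ} (hc : IsV Idem AlgEq c)
    (hd : IsV Idem AlgEq d) (φ : R →+* S) :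
    ∃ μ : (Fin m → ℕ) →+ (Fin n → ℕ), ∀ e, Idem e → d (mmap φ e) = μ (c e) := by
  choose g hg hcg using hc.1
  have key : ∀ e, Idem e → d (mmap φ e) = d (mmap φ (g (c e))) := fun e he =>
    (hd.2 _ _ (he.map φ) ((hg _).map φ)).1.2
      (((hc.2 _ _ he (hg _)).1.1 (hcg _).symm).map φ)
  have hadd : ∀ a b, d (mmap φ (g (a + b))) = d (mmap φ (g a)) + d (mmap φ (g b)) := by
    intro a b
    have := key _ ((hg a).bsum (hg b))
    rw [(hc.2 _ _ (hg a) (hg b)).2, hcg, hcg, mmap_bsum,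
      (hd.2 _ _ ((hg a).map φ) ((hg b).map φ)).2] at this
    exact this.symm
  refine ⟨⟨⟨fun a => d (mmap φ (g a)), ?_⟩, hadd⟩, key⟩
  have := hadd 0 0
  rw [add_zero] at this
  exact left_eq_add.1 this

end mu

end Pool.Agent.H.MP_a87542_al
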