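import Mathlib
import Pool.Agent.H.MP_a87542_al.D

namespace Pool.Agent.H.MP_a87542_al

open Matrix

section unital
variable {B : Type*} [CStarAlgebra B] [PartialOrder B] [StarOrderedRing B]

theorem lemL {r k : B} (hr : r * r = r) (hs : star r = r) {δ : ℝ} (hδ : 0 < δ)
    (h : δ • r ≤ r * k * r) : ∃ s : B, star (s * r) * k * (s * r) = r ∧ s * r = r * s := by
  set a := r * k * r + δ • (1 - r) with ha
  have h1 : algebraMap ℝ B δ ≤ a := by
    rw [Algebra.algebraMap_eq_smul_one, ha, smul_sub, ← sub_nonneg]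
    have : r * k * r + (δ • 1 - δ • r) - δ • 1 = r * k * r - δ • r := by abel
    rw [this, sub_nonneg]
    exact h
  have hp : IsStrictlyPositive a := (isStrictlyPositive_algebraMap hδ).of_le h1
  have har : a * r = r * k * r := by
    rw [ha, add_mul, smul_mul_assoc, sub_mul, one_mul, hr, sub_self, smul_zero, add_zero,
      mul_assoc (r * k), hr]
  have hra : r * a = r * k * r := by
    rw [ha, mul_add, mul_smul_comm, mul_sub, mul_one, hr, sub_self, smul_zero, add_zero,
      ← mul_assoc, ← mul_assoc, hr]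
  have hc : Commute a r := har.trans hra.symm
  set s := a ^ (-(1 / 2) : ℝ) with hsd
  have hsr : Commute s r := hc.cfc_nnreal _
  have hss : star s = s := (CFC.rpow_nonneg (a := a) (y := -(1 / 2))).isSelfAdjoint
  have h2 : s * a * s = 1 := CFC.conjugate_rpow_neg_one_half a hp
  refine ⟨s, ?_, hsr⟩
  rw [star_mul, hs, hss]
  calc r * s * k * (s * r) = s * (r * k * r) * s := by
        rw [← hsr.eq, hsr.eq (a := s) (b := r)]
        nth_rw 1 [← hsr.eq]
        simp only [mul_assoc]
    _ = s * a * (r * s) := by rw [← har]; simp only [mul_assoc]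
    _ = r := by rw [← hsr.eq, ← mul_assoc, h2, one_mul]

theorem lemK (H : ∀ x : B, IsSelfAdjoint x → ∀ ε > 0, ∃ y : B, IsSelfAdjoint y ∧ IsUnit y ∧
      ‖x - y‖ < ε) {h : B} (h0 : 0 ≤ h) (hne : h ≠ 0) :
    ∃ (r : B) (δ : ℝ), r * r = r ∧ star r = r ∧ r ≠ 0 ∧ 0 < δ ∧ δ • r ≤ r * h * r := by
  have hN : 0 < ‖h‖ := norm_pos_iff.2 hne
  set N := ‖h‖ with hNd
  have hx : IsSelfAdjoint (h - algebraMap ℝ B (N / 2)) :=
    h0.isSelfAdjoint.sub (IsSelfAdjoint.algebraMap B (IsSelfAdjoint.all _))
  obtain ⟨y, hy, hu, hd⟩ := H _ hx (N / 4) (by positivity)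
  have h0s : (0 : ℝ) ∉ spectrum ℝ y := (spectrum.zero_notMem_iff ℝ).2 hu
  let χ : ℝ → ℝ := fun t => if 0 < t then 1 else 0
  have hχ : ContinuousOn χ (spectrum ℝ y) := by
    intro t ht
    apply ContinuousAt.continuousWithinAt
    rcases lt_trichotomy t 0 with h1 | rfl | h1
    · refine (continuousAt_const (y := (0 : ℝ))).congr ?_
      filter_upwards [Iio_mem_nhds h1] with u hu
      simp only [χ, if_neg (not_lt.2 (le_of_lt (show u < 0 from hu)))]
    · exact (h0s ht).elim
    · refine (continuousAt_const (y := (1 : ℝ))).congr ?_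
      filter_upwards [Ioi_mem_nhds h1] with u hu
      simp only [χ, if_pos (show 0 < u from hu)]
  set r := cfc χ y with hr
  have hrs : star r = r := (cfc_predicate χ y : IsSelfAdjoint _)
  have hrr : r * r = r := by
    rw [hr, ← cfc_mul _ _ y hχ hχ]
    refine cfc_congr fun t _ => ?_
    simp only [χ]
    split_ifs <;> simp
  set w := h - algebraMap ℝ B (N / 2) - y with hw
  have hws : IsSelfAdjoint w := hx.sub hy
  have hw1 : w ≤ algebraMap ℝ B (N / 4) :=
    hws.le_algebraMap_norm_self.trans (algebraMap_mono B hd.le)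
  have hw2 : -algebraMap ℝ B (N / 4) ≤ w :=
    (neg_le_neg (algebraMap_mono B hd.le)).trans hws.neg_algebraMap_norm_le_self
  refine ⟨r, N / 4, hrr, hrs, ?_, by positivity, ?_⟩
  · intro hr0
    have hy0 : y ≤ 0 := by
      rw [← cfc_id ℝ y]
      refine cfc_nonpos _ _ fun t ht => ?_
      by_contra hpos
      have h1 : χ t ∈ spectrum ℝ r := by
        rw [hr, cfc_map_spectrum (f := χ) (a := y)]
        exact ⟨t, ht, rfl⟩
      have h2 : χ t = 1 := if_pos (not_le.1 hpos)
      rw [hr0, h2] at h1
      have : Nontrivial B := nontrivial_of_ne _ _ hne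
      simp at h1
    have : h ≤ algebraMap ℝ B (N / 2 + N / 4) := by
      calc h = algebraMap ℝ B (N / 2) + w + y := by rw [hw]; abel
        _ ≤ algebraMap ℝ B (N / 2) + algebraMap ℝ B (N / 4) + 0 := by gcongr
        _ = _ := by rw [map_add, add_zero]
    have := (CStarAlgebra.norm_le_iff_le_algebraMap h (by positivity) h0).2 this
    linarith
  · have h1 : 0 ≤ r * y * r := by
      have : r * y * r = cfc (fun t => χ t * t * χ t) y := by
        rw [cfc_mul (fun t => χ t * t) χ y (hχ.mul continuousOn_id) hχ,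
          cfc_mul χ (fun t => t) y hχ continuousOn_id, cfc_id' ℝ y]
      rw [this]
      refine cfc_nonneg fun t _ => ?_
      simp only [χ]
      split_ifs with h2
      · simpa using h2.le
      · simp
    have h2 : algebraMap ℝ B (N / 4) + y ≤ h := by
      calc algebraMap ℝ B (N / 4) + y
          = algebraMap ℝ B (N / 2) + -algebraMap ℝ B (N / 4) + y := by
            rw [← map_neg, ← map_add]; congr 2; ring
        _ ≤ algebraMap ℝ B (N / 2) + w + y := by gcongr
        _ = h := by rw [hw]; abel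
    have h3 := star_left_conjugate_le_conjugate h2 r
    rw [hrs, mul_add, add_mul, Algebra.algebraMap_eq_smul_one, mul_smul_comm, mul_one,
      smul_mul_assoc, hrr] at h3
    exact (le_add_of_nonneg_right h1).trans h3

end unital

section nonunital
universe u
variable {A : Type u} [NonUnitalCStarAlgebra A] [PartialOrder A] [StarOrderedRing A]

theorem lemKL (H : RR0 A) {h : A} (h0 : 0 ≤ h) (hne : h ≠ 0) :
    ∃ r : A, r * r = r ∧ star r = r ∧ r ≠ 0 ∧ ∀ k, h ≤ k → ∃ m : A, star m * k * m = r := by
  obtain ⟨r, δ, hrr, hrs, hr0, hδ, hle⟩ := lemK (B := Unitization ℂ A) H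
    (Unitization.inr_nonneg_iff.2 h0) (by
      intro h1; exact hne (Unitization.inr_injective (R := ℂ) (by simpa using h1)))
  obtain ⟨s, hs, -⟩ := lemL hrr hrs hδ hle
  have hf : r.fst = 0 := by
    rw [← hs]
    simp
  have hr : ((r.snd : A) : Unitization ℂ A) = r := by
    conv_rhs => rw [← Unitization.inl_fst_add_inr_snd_eq r, hf]
    simp
  refine ⟨r.snd, ?_, ?_, ?_, fun k hk => ?_⟩
  · apply Unitization.inr_injective (R := ℂ)
    rw [Unitization.inr_mul, hr, hrr]
  · apply Unitization.inr_injective (R := ℂ)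
    rw [Unitization.inr_star, hr, hrs]
  · intro h1
    rw [h1] at hr
    exact hr0 (by rw [← hr]; simp)
  · have h2 : (h : Unitization ℂ A) ≤ k :=
      (Unitization.inr_le_iff h k h0.isSelfAdjoint (h0.trans hk).isSelfAdjoint).2 hk
    have h3 := star_left_conjugate_le_conjugate h2 r
    rw [hrs] at h3
    obtain ⟨s, hs, -⟩ := lemL hrr hrs hδ (hle.trans h3)
    have hf' : (s * r).fst = 0 := by simp [hf]
    have hr' : (((s * r).snd : A) : Unitization ℂ A) = s * r := by
      conv_rhs => rw [← Unitization.inl_fst_add_inr_snd_eq (s * r), hf']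
      simp
    refine ⟨(s * r).snd, ?_⟩
    apply Unitization.inr_injective (R := ℂ)
    rw [Unitization.inr_mul, Unitization.inr_mul, Unitization.inr_star, hr', hr, hs]

end nonunital

end Pool.Agent.H.MP_a87542_al
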