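import Mathlib
import Pool.Agent.H.MP_a87542_al.C

namespace Pool.Agent.H.MP_a87542_al

open Matrix

universe u

section star
variable {A : Type u} [NonUnitalRing A] [StarRing A]

theorem rows_star {l m n : Type} [Fintype n] (v : Matrix l n A) (w : Matrix m n A) :
    fromRows v w * (fromRows v w)ᴴ = fromBlocks (v * vᴴ) (v * wᴴ) (w * vᴴ) (w * wᴴ) := by
  ext (_ | _) (_ | _) <;> simp [Matrix.mul_apply]

theorem star_rows {l m n : Type} [Fintype l] [Fintype m] (v : Matrix l n A) (w : Matrix m n A) :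
    (fromRows v w)ᴴ * fromRows v w = vᴴ * v + wᴴ * w := by
  ext
  simp [Matrix.mul_apply]

theorem mvn_bsum (e p q : Mat A) : MvN e (bsum p q) ↔
    ∃ (v : Matrix (Fin p.1) (Fin e.1) A) (w : Matrix (Fin q.1) (Fin e.1) A),
      e.2 = vᴴ * v + wᴴ * w ∧ v * vᴴ = p.2 ∧ v * wᴴ = 0 ∧ w * wᴴ = q.2 := by
  have key : ∀ (v : Matrix (Fin p.1) (Fin e.1) A) (w : Matrix (Fin q.1) (Fin e.1) A)
      (z : Matrix (Fin (p.1 + q.1)) (Fin e.1) A),
      z = (fromRows v w).submatrix finSumFinEquiv.symm id →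
      zᴴ * z = vᴴ * v + wᴴ * w ∧ z * zᴴ = (fromBlocks (v * vᴴ) (v * wᴴ) (w * vᴴ)
        (w * wᴴ)).submatrix finSumFinEquiv.symm finSumFinEquiv.symm := by
    rintro v w z rfl
    rw [conjTranspose_submatrix, submatrix_mul_equiv, star_rows, ← rows_star]
    exact ⟨rfl, rfl⟩
  constructor
  · rintro ⟨z, h1, h2⟩
    let z' : Matrix (Fin (p.1 + q.1)) (Fin e.1) A := z
    let y := z'.submatrix finSumFinEquiv id
    obtain ⟨h3, h4⟩ := key y.toRows₁ y.toRows₂ z' (by rw [fromRows_toRows]; simp [y])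
    have h5 := h2.trans h4
    have h6 : fromBlocks p.2 0 0 q.2 = fromBlocks _ _ _ _ :=
      (Matrix.reindex finSumFinEquiv finSumFinEquiv).injective h5
    rw [fromBlocks_inj] at h6
    exact ⟨_, _, h1.trans h3, h6.1.symm, h6.2.1.symm, h6.2.2.2.symm⟩
  · rintro ⟨v, w, h1, h2, h3, h4⟩
    obtain ⟨h5, h6⟩ := key v w _ rfl
    have h7 : w * vᴴ = 0 := by
      have := congrArg conjTranspose h3
      simpa [conjTranspose_mul] using this
    rw [h2, h3, h4, h7] at h6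
    exact ⟨_, h1.trans h5.symm, h6.symm⟩

theorem Proj.bsum {e f : Mat A} (he : Proj e) (hf : Proj f) : Proj (bsum e f) := by
  constructor
  · change ((fromBlocks e.2 0 0 f.2).submatrix finSumFinEquiv.symm finSumFinEquiv.symm :
      Matrix (Fin (e.1 + f.1)) (Fin (e.1 + f.1)) A) *
      (fromBlocks e.2 0 0 f.2).submatrix finSumFinEquiv.symm finSumFinEquiv.symm =
      (fromBlocks e.2 0 0 f.2).submatrix finSumFinEquiv.symm finSumFinEquiv.symm
    rw [submatrix_mul_equiv, fromBlocks_multiply, he.1, hf.1]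
    simp
  · change ((fromBlocks e.2 0 0 f.2).submatrix finSumFinEquiv.symm finSumFinEquiv.symm :
      Matrix (Fin (e.1 + f.1)) (Fin (e.1 + f.1)) A)ᴴ =
      (fromBlocks e.2 0 0 f.2).submatrix finSumFinEquiv.symm finSumFinEquiv.symm
    rw [conjTranspose_submatrix, fromBlocks_conjTranspose, he.2, hf.2]
    simp

variable {k : ℕ} {c : Mat A → Fin k → ℕ}

theorem projnil : Proj (⟨0, 0⟩ : Mat A) := ⟨Subsingleton.elim _ _, Subsingleton.elim _ _⟩

theorem c_nil (hc : IsV Proj MvN c) : c ⟨0, 0⟩ = 0 := by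
  have := (hc.2 _ _ projnil projnil).2
  have h : bsum (⟨0, 0⟩ : Mat A) ⟨0, 0⟩ = ⟨0, 0⟩ := by
    change (⟨0, _⟩ : Mat A) = _
    congr 1
    exact Subsingleton.elim _ _
  rw [h] at this
  exact left_eq_add.1 this

theorem c_zero (hc : IsV Proj MvN c) {e : Mat A} (he : Proj e) : c e = 0 ↔ e.2 = 0 := by
  rw [← c_nil hc, (hc.2 _ _ he projnil).1]
  constructor
  · rintro ⟨v, h, -⟩
    rw [h]
    ext
    simp [Matrix.mul_apply]
  · intro h
    exact ⟨0, by simp [h], Subsingleton.elim _ _⟩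

theorem proj_add {n : ℕ} {P Q : Matrix (Fin n) (Fin n) A} (hP : Proj ⟨n, P⟩) (hQ : Proj ⟨n, Q⟩)
    (h : P * Q = 0) : Proj ⟨n, P + Q⟩ := by
  have h1 : P * P = P := hP.1
  have h2 : Q * Q = Q := hQ.1
  have h3 : Pᴴ = P := hP.2
  have h4 : Qᴴ = Q := hQ.2
  have h5 : Q * P = 0 := by
    have := congrArg conjTranspose h
    simpa [conjTranspose_mul, h3, h4] using this
  constructor
  · change (P + Q) * (P + Q) = P + Q
    rw [add_mul, mul_add, mul_add, h1, h2, h, h5]; simp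
  · change (P + Q)ᴴ = P + Q
    rw [conjTranspose_add, h3, h4]

theorem c_add (hc : IsV Proj MvN c) {n : ℕ} {P Q : Matrix (Fin n) (Fin n) A} (hP : Proj ⟨n, P⟩)
    (hQ : Proj ⟨n, Q⟩) (h : P * Q = 0) : c ⟨n, P + Q⟩ = c ⟨n, P⟩ + c ⟨n, Q⟩ := by
  have h1 : P * P = P := hP.1
  have h2 : Q * Q = Q := hQ.1
  have h3 : Pᴴ = P := hP.2
  have h4 : Qᴴ = Q := hQ.2
  rw [← (hc.2 _ _ hP hQ).2, (hc.2 _ _ (proj_add hP hQ h) (hP.bsum hQ)).1, mvn_bsum]
  refine ⟨P, Q, ?_, ?_, ?_, ?_⟩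
  · change P + Q = Pᴴ * P + Qᴴ * Q
    rw [h3, h4, h1, h2]
  · change P * Pᴴ = P
    rw [h3, h1]
  · change P * Qᴴ = 0
    rw [h4, h]
  · change Q * Qᴴ = Q
    rw [h4, h2]

theorem c_sub (hc : IsV Proj MvN c) {n : ℕ} {P E : Matrix (Fin n) (Fin n) A} (hP : Proj ⟨n, P⟩)
    (hE : Proj ⟨n, E⟩) (h : P * E = P) :
    Proj ⟨n, E - P⟩ ∧ c ⟨n, E⟩ = c ⟨n, P⟩ + c ⟨n, E - P⟩ := by
  have h1 : P * P = P := hP.1
  have h2 : E * E = E := hE.1
  have h3 : Pᴴ = P := hP.2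
  have h4 : Eᴴ = E := hE.2
  have h5 : E * P = P := by
    have := congrArg conjTranspose h
    simpa [conjTranspose_mul, h3, h4] using this
  have h6 : Proj ⟨n, E - P⟩ := by
    constructor
    · change (E - P) * (E - P) = E - P
      rw [sub_mul, mul_sub, mul_sub, h1, h2, h, h5]; simp
    · change (E - P)ᴴ = E - P
      rw [conjTranspose_sub, h3, h4]
  refine ⟨h6, ?_⟩
  rw [← c_add hc hP h6 (by rw [mul_sub, h, h1, sub_self])]
  simp

theorem c_split (hc : IsV Proj MvN c) {n : ℕ} {E : Matrix (Fin n) (Fin n) A} (hE : Proj ⟨n, E⟩)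
    {a b : Fin k → ℕ} (h : c ⟨n, E⟩ = a + b) :
    ∃ P : Matrix (Fin n) (Fin n) A, Proj ⟨n, P⟩ ∧ P * E = P ∧ c ⟨n, P⟩ = a := by
  obtain ⟨p, hp, rfl⟩ := hc.1 a
  obtain ⟨q, hq, rfl⟩ := hc.1 b
  rw [← (hc.2 _ _ hp hq).2, (hc.2 _ _ hE (hp.bsum hq)).1, mvn_bsum] at h
  obtain ⟨v, w, h1, h2, h3, -⟩ := h
  change E = _ at h1
  have h4 : (p.2 * v) * (p.2 * v)ᴴ = p.2 := by
    rw [conjTranspose_mul, Matrix.mul_assoc, ← Matrix.mul_assoc v, h2, hp.2, hp.1, hp.1]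
  have h5 : Proj ⟨n, (p.2 * v)ᴴ * (p.2 * v)⟩ := by
    constructor
    · change (p.2 * v)ᴴ * (p.2 * v) * ((p.2 * v)ᴴ * (p.2 * v)) = (p.2 * v)ᴴ * (p.2 * v)
      rw [Matrix.mul_assoc, ← Matrix.mul_assoc (p.2 * v), h4, ← Matrix.mul_assoc p.2, hp.1]
    · change ((p.2 * v)ᴴ * (p.2 * v))ᴴ = (p.2 * v)ᴴ * (p.2 * v)
      rw [conjTranspose_mul, conjTranspose_conjTranspose]
  refine ⟨_, h5, ?_, (hc.2 _ _ h5 hp).1.2 ⟨p.2 * v, rfl, h4.symm⟩⟩
  rw [h1, Matrix.mul_assoc, Matrix.mul_assoc, Matrix.mul_add, ← Matrix.mul_assoc v,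
    ← Matrix.mul_assoc v, h2, h3, Matrix.zero_mul, add_zero, ← Matrix.mul_assoc p.2, hp.1]

theorem c_le (hc : IsV Proj MvN c) {n : ℕ} {P : Matrix (Fin n) (Fin n) A} (hP : Proj ⟨n, P⟩)
    {r : Mat A} (hr : Proj r) (v : Matrix (Fin n) (Fin r.1) A) (h1 : vᴴ * v = r.2)
    (h2 : P * v = v) (h3 : v * r.2 = v) : c r ≤ c ⟨n, P⟩ := by
  have h4 : Proj ⟨n, v * vᴴ⟩ := by
    constructor
    · change v * vᴴ * (v * vᴴ) = v * vᴴ
      rw [Matrix.mul_assoc, ← Matrix.mul_assoc vᴴ, h1, ← Matrix.mul_assoc, h3]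
    · change (v * vᴴ)ᴴ = v * vᴴ
      rw [conjTranspose_mul, conjTranspose_conjTranspose]
  have h5 : v * vᴴ * P = v * vᴴ := by
    have := congrArg conjTranspose h2
    rw [conjTranspose_mul, show Pᴴ = P from hP.2] at this
    rw [Matrix.mul_assoc, this]
  rw [(c_sub hc h4 hP h5).2, (hc.2 _ _ hr h4).1.2 ⟨v, h1.symm, rfl⟩]
  exact le_self_add

end star

section cstar
variable {A : Type u} [NonUnitalCStarAlgebra A] {k : ℕ} {c : Mat A → Fin k → ℕ}

theorem orth (H : RR0 A) (hc : IsV Proj MvN c) {n : ℕ} {P Q : Matrix (Fin n) (Fin n) A}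
    (hP : Proj ⟨n, P⟩) (hQ : Proj ⟨n, Q⟩) (hd : ∀ i, c ⟨n, P⟩ i = 0 ∨ c ⟨n, Q⟩ i = 0) :
    P * Q = 0 := by
  let _ : PartialOrder A := CStarAlgebra.spectralOrder A
  have _ : StarOrderedRing A := CStarAlgebra.spectralOrderedRing A
  have h1 : P * P = P := hP.1
  have h2 : Q * Q = Q := hQ.1
  have h3 : Pᴴ = P := hP.2
  have h4 : Qᴴ = Q := hQ.2
  by_contra hne
  obtain ⟨i, j, hij⟩ : ∃ i j, (P * Q) i j ≠ 0 := by
    by_contra h
    push Not at h
    exact hne (Matrix.ext h)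
  have dg : ∀ X : Matrix (Fin n) (Fin n) A, (Xᴴ * X) j j = ∑ l, star (X l j) * X l j :=
    fun X => by simp [Matrix.mul_apply]
  have dg0 : ∀ X : Matrix (Fin n) (Fin n) A, 0 ≤ (Xᴴ * X) j j := fun X => by
    rw [dg]; exact Finset.sum_nonneg fun l _ => star_mul_self_nonneg _
  have hne' : ((P * Q)ᴴ * (P * Q)) j j ≠ 0 := by
    rw [dg]
    intro h
    rw [Finset.sum_eq_zero_iff_of_nonneg fun l _ => star_mul_self_nonneg _] at h
    exact hij (CStarRing.star_mul_self_eq_zero_iff _ |>.1 (h i (Finset.mem_univ i)))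
  obtain ⟨r, hrr, hrs, hr0, hr⟩ := lemKL H (dg0 (P * Q)) hne'
  have hrp : Proj (⟨1, Matrix.of fun _ _ => r⟩ : Mat A) := by
    constructor
    · ext; simp [Matrix.mul_apply, hrr]
    · ext; simp [hrs]
  have key : ∀ X Y : Matrix (Fin n) (Fin n) A, Proj ⟨n, Y⟩ → Y * X = X →
      ((P * Q)ᴴ * (P * Q)) j j ≤ (Xᴴ * X) j j → c ⟨1, Matrix.of fun _ _ => r⟩ ≤ c ⟨n, Y⟩ := by
    intro X Y hY hYX hle
    obtain ⟨m, hm⟩ := hr _ hle
    refine c_le hc hY hrp (Matrix.of fun l _ => X l j * (m * r)) ?_ ?_ ?_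
    · ext a b
      have : r * (star m * (Xᴴ * X) j j * m) * r = r := by rw [hm, hrr, hrr]
      rw [dg] at this
      simpa [Matrix.mul_apply, Finset.mul_sum, Finset.sum_mul, mul_assoc, hrs] using this
    · ext a b
      have := congrFun (congrFun hYX a) j
      simp only [Matrix.mul_apply, Matrix.of_apply, ← mul_assoc, ← Finset.sum_mul] at this ⊢
      rw [this]
    · ext a b
      simp [Matrix.mul_apply, mul_assoc, hrr]
  have l1 := key (P * Q) P hP (by rw [← Matrix.mul_assoc, h1]) le_rfl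
  have l2 := key Q Q hQ h2 (by
    have := dg0 (Q - P * Q)
    have h5 : (Q - P * Q)ᴴ * (Q - P * Q) = Qᴴ * Q - (P * Q)ᴴ * (P * Q) := by
      simp only [conjTranspose_sub, conjTranspose_mul, h3, h4, sub_mul, mul_sub, mul_assoc]
      rw [← mul_assoc P P, h1]
      abel
    rw [h5] at this
    exact sub_nonneg.1 this)
  have : c ⟨1, Matrix.of fun _ _ => r⟩ = 0 := by
    funext l
    rcases hd l with h | h
    · exact Nat.le_zero.1 (h ▸ l1 l)
    · exact Nat.le_zero.1 (h ▸ l2 l)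
  exact hr0 (congrFun (congrFun ((c_zero hc hrp).1 this) 0) 0)

end cstar

end Pool.Agent.H.MP_a87542_al
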