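import Mathlib
import Pool.Agent.H.MP_a87542_al.B
import Pool.Agent.H.MP_a87542_al.E

namespace Pool.Agent.H.MP_a87542_al

open Matrix

universe u

def pt : Fin 28 → T :=
  ![!![0, 0, 0; 0, 0, 0; 0, 0, 1],
    !![0, 0, 0; 0, 0, 0; 0, 1, 1],
    !![0, 0, 0; 0, 0, 0; 1, 0, 1],
    !![0, 0, 0; 0, 0, 0; 1, 1, 1],
    !![0, 0, 0; 0, 1, 0; 0, 0, 0],
    !![0, 0, 0; 0, 1, 1; 0, 0, 0],
    !![0, 0, 0; 1, 1, 0; 0, 0, 0],
    !![0, 0, 0; 1, 1, 1; 0, 0, 0],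
    !![0, 0, 0; 0, 0, 1; 0, 0, 1],
    !![0, 0, 0; 0, 1, 0; 0, 1, 0],
    !![0, 0, 0; 1, 0, 1; 1, 0, 1],
    !![0, 0, 0; 1, 1, 0; 1, 1, 0],
    !![1, 0, 0; 0, 0, 0; 0, 0, 0],
    !![1, 0, 1; 0, 0, 0; 0, 0, 0],
    !![1, 1, 0; 0, 0, 0; 0, 0, 0],
    !![1, 1, 1; 0, 0, 0; 0, 0, 0],
    !![0, 0, 1; 0, 0, 0; 0, 0, 1],
    !![0, 1, 1; 0, 0, 0; 0, 1, 1],
    !![1, 0, 0; 0, 0, 0; 1, 0, 0],
    !![1, 1, 0; 0, 0, 0; 1, 1, 0],
    !![0, 1, 0; 0, 1, 0; 0, 0, 0],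
    !![0, 1, 1; 0, 1, 1; 0, 0, 0],
    !![1, 0, 0; 1, 0, 0; 0, 0, 0],
    !![1, 0, 1; 1, 0, 1; 0, 0, 0],
    !![0, 0, 1; 0, 0, 1; 0, 0, 1],
    !![0, 1, 0; 0, 1, 0; 0, 1, 0],
    !![1, 0, 0; 1, 0, 0; 1, 0, 0],
    !![1, 1, 1; 1, 1, 1; 1, 1, 1]]

def O (p q : T) : Prop := p * p = p ∧ q * q = q ∧ p * q = 0 ∧ q * p = 0

instance (p q : T) : Decidable (O p q) := by unfold O; infer_instance

theorem ptid : ∀ i, pt i * pt i = pt i := by decide +kernel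

theorem cert {W : Type u} [NonUnitalRing W] [Module ℂ W] (Y : Fin 28 → W) (E : W)
    (H : ∀ i j k, O (pt i) (pt j) ∧ pt k = 1 - pt i - pt j → Y i + Y j + Y k = E ∧ Y i * Y j = 0)
    (h0 : Y 0 * Y 0 = Y 0) : Y 0 = 0 := by
  have n0 := (H 0 6 22 (by decide +kernel)).1
  have n1 := (H 0 14 20 (by decide +kernel)).1
  have n2 := (H 1 11 26 (by decide +kernel)).1
  have n3 := (H 2 19 25 (by decide +kernel)).1
  have n4 := (H 3 9 18 (by decide +kernel)).1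
  have n5 := (H 5 13 24 (by decide +kernel)).1
  have n6 := (H 7 16 23 (by decide +kernel)).1
  have n7 := (H 8 15 21 (by decide +kernel)).1
  have n8 := (H 10 17 27 (by decide +kernel)).1
  have p0 := (H 1 9 12 (by decide +kernel)).1
  have p1 := (H 2 6 26 (by decide +kernel)).1
  have p2 := (H 3 11 22 (by decide +kernel)).1
  have p3 := (H 5 8 12 (by decide +kernel)).1
  have p4 := (H 7 10 18 (by decide +kernel)).1
  have p5 := (H 13 17 25 (by decide +kernel)).1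
  have p6 := (H 14 21 24 (by decide +kernel)).1
  have p7 := (H 15 16 20 (by decide +kernel)).1
  have p8 := (H 19 23 27 (by decide +kernel)).1
  have h1 := (H 0 12 4 (by decide +kernel)).2
  have h2 : Y 12 = Y 0 := by
    linear_combination (norm := module) (1 / 2 : ℂ) • (p0 + p1 + p2 + p3 + p4 + p5 + p6 + p7 + p8 - (n0 + n1 + n2 + n3 + n4 + n5 + n6 + n7 + n8))
  rw [h2, h0] at h1
  exact h1

def Sb0 (p q : T) (h : O p q) : Subring T :=
   { carrier := {x | ∃ a b c : ZMod 2, x = a • 1 + b • p + c • q}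
     mul_mem' := by
       rintro _ _ ⟨a, b, c, rfl⟩ ⟨a', b', c', rfl⟩
       refine ⟨a * a', a * b' + b * a' + b * b', a * c' + c * a' + c * c', ?_⟩
       simp only [add_mul, mul_add, smul_mul_assoc, mul_smul_comm, one_mul, mul_one, h.1, h.2.1,
         h.2.2.1, h.2.2.2, smul_zero]
       module
     one_mem' := ⟨1, 0, 0, by simp⟩
     add_mem' := by
       rintro _ _ ⟨a, b, c, rfl⟩ ⟨a', b', c', rfl⟩
       exact ⟨a + a', b + b', c + c', by module⟩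
     zero_mem' := ⟨0, 0, 0, by simp⟩
     neg_mem' := by
       rintro _ ⟨a, b, c, rfl⟩
       exact ⟨-a, -b, -c, by module⟩ }

theorem Sb0_bo (p q : T) (h : O p q) : Bo (Sb0 p q h) := by
  rintro _ ⟨a, b, c, rfl⟩
  have h1 : ∀ a : ZMod 2, a * a = a := by decide
  have h2 : ∀ a b : ZMod 2, a * b + b * a + b * b = b := by decide
  have : (a • 1 + b • p + c • q) * (a • 1 + b • p + c • q) = (a * a) • (1 : T) +
      (a * b + b * a + b * b) • p + (a * c + c * a + c * c) • q := by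
    simp only [add_mul, mul_add, smul_mul_assoc, mul_smul_comm, one_mul, mul_one, h.1, h.2.1,
      h.2.2.1, h.2.2.2, smul_zero]
    module
  rw [this, h1, h2, h2]

def Sb (p q : T) (h : O p q) : P := ⟨Sb0 p q h, Or.inl (Sb0_bo p q h)⟩

theorem O0 {t : T} (ht : t * t = t) : O t 0 := ⟨ht, by simp, by simp, by simp⟩

theorem smul_mem (S : Subring T) (a : ZMod 2) {t : T} (h : t ∈ S) : a • t ∈ S := by
  have : a = 0 ∨ a = 1 := by revert a; decide
  rcases this with rfl | rfl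
  · simp
  · simpa using h

theorem Sb_le {t : T} (ht : t * t = t) (S : P) (h : t ∈ S.1) : Sb t 0 (O0 ht) ≤ S := by
  rintro _ ⟨a, b, c, rfl⟩
  exact S.1.add_mem (S.1.add_mem (smul_mem _ _ S.1.one_mem) (smul_mem _ _ h))
    (smul_mem _ _ S.1.zero_mem)

theorem Sb_bo (p q : T) (h : O p q) : Bo (Sb p q h).1 := Sb0_bo p q h

theorem one_idem {R : Type} [Ring R] {a : R} (h : a * a = a) : Idem (one a) := by
  let A : Matrix (Fin 1) (Fin 1) R := Matrix.of fun _ _ => a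
  change A * A = A
  ext
  simp [A, Matrix.mul_apply, h]

theorem one_add {R : Type} [Ring R] {k : ℕ} {c : Mat R → Fin k → ℕ} (hc : IsV Idem AlgEq c)
    {a b : R} (ha : a * a = a) (hb : b * b = b) (hab : a * b = 0) (hba : b * a = 0) :
    c (one (a + b)) = c (one a) + c (one b) := by
  have h : (a + b) * (a + b) = a + b := by
    rw [add_mul, mul_add, mul_add, ha, hb, hab, hba]; simp
  rw [← (hc.2 _ _ (one_idem ha) (one_idem hb)).2,
    (hc.2 _ _ (one_idem h) ((one_idem ha).bsum (one_idem hb))).1]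
  let A : Matrix (Fin 1) (Fin 1) R := Matrix.of fun _ _ => a
  let B : Matrix (Fin 1) (Fin 1) R := Matrix.of fun _ _ => b
  refine ⟨((fromCols A B).submatrix id finSumFinEquiv.symm : Matrix (Fin 1) (Fin (1 + 1)) R),
    ((fromRows A B).submatrix finSumFinEquiv.symm id : Matrix (Fin (1 + 1)) (Fin 1) R), ?_, ?_⟩
  · change (Matrix.of fun _ _ => a + b : Matrix (Fin 1) (Fin 1) R) =
      ((fromCols A B).submatrix id finSumFinEquiv.symm : Matrix (Fin 1) (Fin (1 + 1)) R) *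
      ((fromRows A B).submatrix finSumFinEquiv.symm id : Matrix (Fin (1 + 1)) (Fin 1) R)
    rw [submatrix_mul_equiv, fromCols_mul_fromRows]
    ext
    simp [A, B, Matrix.mul_apply, ha, hb]
  · change ((fromBlocks A 0 0 B).submatrix finSumFinEquiv.symm finSumFinEquiv.symm :
      Matrix (Fin (1 + 1)) (Fin (1 + 1)) R) =
      ((fromRows A B).submatrix finSumFinEquiv.symm id : Matrix (Fin (1 + 1)) (Fin 1) R) *
      ((fromCols A B).submatrix id finSumFinEquiv.symm : Matrix (Fin 1) (Fin (1 + 1)) R)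
    rw [← submatrix_mul _ _ _ _ _ Function.bijective_id, fromRows_mul_fromCols]
    congr 2 <;> ext <;> simp [A, B, Matrix.mul_apply, ha, hb, hab, hba]

theorem one_ne {R : Type} [Ring R] {k : ℕ} {c : Mat R → Fin k → ℕ} (hc : IsV Idem AlgEq c)
    {a : R} (ha : a * a = a) (h : c (one a) = 0) : a = 0 := by
  have h0 : Idem (⟨0, 0⟩ : Mat R) := Subsingleton.elim _ _
  have h1 := (hc.2 _ _ h0 h0).2
  have h2 : bsum (⟨0, 0⟩ : Mat R) ⟨0, 0⟩ = ⟨0, 0⟩ := by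
    change (⟨0, _⟩ : Mat R) = _
    congr 1
    exact Subsingleton.elim _ _
  rw [h2] at h1
  rw [← left_eq_add.1 h1, (hc.2 _ _ (one_idem ha) h0).1] at h
  obtain ⟨x, y, h, -⟩ := h
  have := congrFun (congrFun h (0 : Fin 1)) (0 : Fin 1)
  rw [Matrix.mul_apply] at this
  exact this.trans (Finset.sum_of_isEmpty (ι := Fin 0) _)

section
variable {A B : Type u} [NonUnitalCStarAlgebra A] [NonUnitalCStarAlgebra B]

theorem Proj.map (φ : A →⋆ₙₐ[ℂ] B) {n : ℕ} {X : Matrix (Fin n) (Fin n) A} (h : Proj ⟨n, X⟩) :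
    Proj ⟨n, X.map φ⟩ := by
  constructor
  · change X.map φ * X.map φ = X.map φ
    rw [← Matrix.map_mul, show X * X = X from h.1]
  · change (X.map φ)ᴴ = X.map φ
    rw [← conjTranspose_map _ (map_star φ), show Xᴴ = X from h.2]
end

theorem main : ∃ (n : P → ℕ) (μ : ∀ p q, p ≤ q → (Fin (n p) → ℕ) →+ (Fin (n q) → ℕ)),
    Funct (fun p q h => (μ p q h : (Fin (n p) → ℕ) → (Fin (n q) → ℕ))) ∧ LiftsReg μ ∧
      ¬ LiftsRR0.{u} μ := by
  choose n c hc hdis using exV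
  choose μ hμ using fun (p q : P) (h : p ≤ q) =>
    exmu (hc p) (hc q) (Subring.inclusion (S := p.1) (T := q.1) h)
  refine ⟨n, μ, ⟨fun p x => ?_, fun p q r h k x => ?_⟩,
    ⟨fun p => p.1, inferInstance, fun p q h => Subring.inclusion h, c, regP,
      ⟨fun _ _ => rfl, fun _ _ _ _ _ _ => rfl⟩, hc, hμ⟩, ?_⟩
  · obtain ⟨e, he, rfl⟩ := (hc p).1 x
    exact (hμ p p le_rfl e he).symm
  · obtain ⟨e, he, rfl⟩ := (hc p).1 x
    dsimp only
    rw [← hμ p q h e he, ← hμ q r k _ (he.map _), ← hμ p r _ e he]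
    rfl
  rintro ⟨A, _, φ, d, hR, hF, hV, hN⟩
  have hcomp : ∀ {N : ℕ} p q r (h : p ≤ q) (k : q ≤ r) (X : Matrix (Fin N) (Fin N) (A p)),
      (X.map (φ p q h)).map (φ q r k) = X.map (φ p r (h.trans k)) := by
    intro N p q r h k X
    ext i j
    exact hF.2 p q r h k _
  have hcl : ∀ {N : ℕ} p q (h : p ≤ q) (X : Matrix (Fin N) (Fin N) (A p)) (t : T) (hm : t ∈ p.1),
      t * t = t → Proj ⟨N, X⟩ → d p ⟨N, X⟩ = c p (one ⟨t, hm⟩) →
      d q ⟨N, X.map (φ p q h)⟩ = c q (one ⟨t, h hm⟩) := by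
    intro N p q h X t hm ht hX hd
    have := hN p q h _ hX
    rw [hd, ← hμ p q h _ (one_idem (Subtype.ext ht))] at this
    exact this
  let b0 : P := Sb 0 0 (O0 (by simp))
  have hb0 : ∀ S : P, b0 ≤ S := fun S => Sb_le (by simp) S S.1.zero_mem
  obtain ⟨⟨N, E0⟩, hE0, hcE0⟩ := (hV b0).1 (c b0 (one 1))
  let E : ∀ S : P, Matrix (Fin N) (Fin N) (A S) := fun S => E0.map (φ b0 S (hb0 S))
  have hE : ∀ S, Proj ⟨N, E S⟩ := fun S => hE0.map _
  have hcE : ∀ S, d S ⟨N, E S⟩ = c S (one 1) := fun S =>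
    hcl b0 S (hb0 S) E0 1 b0.1.one_mem (one_mul 1) hE0 hcE0
  have hEm : ∀ S S' (h : S ≤ S'), (E S).map (φ S S' h) = E S' := fun S S' h => hcomp _ _ _ _ _ _
  have hmem : ∀ t (ht : t * t = t), t ∈ (Sb t 0 (O0 ht)).1 := fun t ht => ⟨0, 1, 0, by simp⟩
  have hX : ∀ t (ht : t * t = t), ∃ X : Matrix (Fin N) (Fin N) (A (Sb t 0 (O0 ht))),
      Proj ⟨N, X⟩ ∧ X * E _ = X ∧ d _ ⟨N, X⟩ = c _ (one ⟨t, hmem t ht⟩) := by
    intro t ht
    have ht' : (⟨t, hmem t ht⟩ : (Sb t 0 (O0 ht)).1) * ⟨t, hmem t ht⟩ = ⟨t, hmem t ht⟩ :=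
      Subtype.ext ht
    refine c_split (hV _) (hE _) (b := c _ (one (1 - ⟨t, hmem t ht⟩))) ?_
    have hi : IsIdempotentElem (⟨t, hmem t ht⟩ : (Sb t 0 (O0 ht)).1) := ht'
    rw [hcE, ← one_add (hc _) ht' hi.one_sub hi.mul_one_sub_self hi.one_sub_mul_self,
      add_sub_cancel]
  choose X hX1 hX2 hX3 using hX
  let Y : ∀ (S : P) t (ht : t * t = t), t ∈ S.1 → Matrix (Fin N) (Fin N) (A S) :=
    fun S t ht hm => (X t ht).map (φ _ S (Sb_le ht S hm))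
  have hY1 : ∀ S t ht hm, Proj ⟨N, Y S t ht hm⟩ := fun S t ht hm => (hX1 t ht).map _
  have hY2 : ∀ S t ht hm, Y S t ht hm * E S = Y S t ht hm := fun S t ht hm => by
    rw [← hEm _ S (Sb_le ht S hm), ← Matrix.map_mul, hX2]
  have hY3 : ∀ S t ht hm, d S ⟨N, Y S t ht hm⟩ = c S (one ⟨t, hm⟩) := fun S t ht hm =>
    hcl _ S _ _ t _ ht (hX1 t ht) (hX3 t ht)
  have hYm : ∀ S S' (h : S ≤ S') t ht hm, (Y S t ht hm).map (φ S S' h) = Y S' t ht (h hm) :=
    fun S S' h t ht hm => hcomp _ _ _ _ _ _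
  let tp : P := ⟨⊤, Or.inr rfl⟩
  have htp : ∀ S : P, S ≤ tp := fun S => (le_top : S.1 ≤ ⊤)
  refine absurd (cert (fun i => Y tp (pt i) (ptid i) trivial) (E tp) ?_
    (hY1 tp _ (ptid 0) trivial).1) ?_
  swap
  · intro this
    have h1 := (c_zero (hV tp) (hY1 tp _ (ptid 0) trivial)).2 this
    rw [hY3 tp _ _ trivial] at h1
    have h2 := congrArg Subtype.val (one_ne (hc tp) (Subtype.ext (ptid 0)) h1)
    exact absurd (show pt 0 = 0 from h2) (by decide +kernel)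
  rintro i j k ⟨hO, hk⟩
  let L := Sb _ _ hO
  have mi : pt i ∈ L.1 := ⟨0, 1, 0, by simp⟩
  have mj : pt j ∈ L.1 := ⟨0, 0, 1, by simp⟩
  have mk : pt k ∈ L.1 := hk ▸ L.1.sub_mem (L.1.sub_mem L.1.one_mem mi) mj
  have ho : ∀ s t hs ht ms mt, s * t = 0 → Y L s hs ms * Y L t ht mt = 0 := by
    intro s t hs ht ms mt h
    refine orth (hR L) (hV L) (hY1 _ _ _ ms) (hY1 _ _ _ mt) ?_
    rw [hY3 _ _ _ ms, hY3 _ _ _ mt]
    exact hdis L (Sb_bo _ _ _) _ _ (Subtype.ext h)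
  have hik : pt i * pt k = 0 := by rw [hk, mul_sub, mul_sub, hO.1, hO.2.2.1]; simp
  have hjk : pt j * pt k = 0 := by rw [hk, mul_sub, mul_sub, hO.2.1, hO.2.2.2]; simp
  have hki : pt k * pt i = 0 := by rw [hk, sub_mul, sub_mul, hO.1, hO.2.2.2]; simp
  have hkj : pt k * pt j = 0 := by rw [hk, sub_mul, sub_mul, hO.2.1, hO.2.2.1]; simp
  have o1 := ho _ _ (ptid i) (ptid j) mi mj hO.2.2.1
  have o2 : (Y L _ (ptid i) mi + Y L _ (ptid j) mj) * Y L _ (ptid k) mk = 0 := by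
    rw [add_mul, ho _ _ _ _ mi mk hik, ho _ _ _ _ mj mk hjk, add_zero]
  have p1 := proj_add (hY1 _ _ _ mi) (hY1 _ _ _ mj) o1
  have p2 := proj_add p1 (hY1 _ _ _ mk) o2
  obtain ⟨p3, h3⟩ := c_sub (hV L) p2 (hE L) (by
    rw [add_mul, add_mul, hY2 _ _ _ mi, hY2 _ _ _ mj, hY2 _ _ _ mk])
  have h4 : c L (one 1) = c L (one ⟨_, mi⟩) + c L (one ⟨_, mj⟩) + c L (one ⟨_, mk⟩) := by
    rw [← one_add (hc L) (Subtype.ext hO.1) (Subtype.ext hO.2.1) (Subtype.ext hO.2.2.1)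
      (Subtype.ext hO.2.2.2), ← one_add (hc L) (Subtype.ext ?_) (Subtype.ext (ptid k))
      (Subtype.ext ?_) (Subtype.ext ?_)]
    · congr 2
      apply Subtype.ext
      change 1 = pt i + pt j + pt k
      rw [hk]; abel
    · change (pt i + pt j) * (pt i + pt j) = pt i + pt j
      rw [add_mul, mul_add, mul_add, hO.1, hO.2.1, hO.2.2.1, hO.2.2.2]; simp
    · change (pt i + pt j) * pt k = 0
      rw [add_mul, hik, hjk, add_zero]
    · change pt k * (pt i + pt j) = 0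
      rw [mul_add, hki, hkj, add_zero]
  rw [c_add (hV L) p1 (hY1 _ _ _ mk) o2, c_add (hV L) (hY1 _ _ _ mi) (hY1 _ _ _ mj) o1,
    hY3 _ _ _ mi, hY3 _ _ _ mj, hY3 _ _ _ mk,
    hcE, h4, left_eq_add, c_zero (hV L) p3] at h3
  have h5 : E L = _ := sub_eq_zero.1 h3
  constructor
  · rw [← hEm L tp (htp L), h5, Matrix.map_add _ (map_add _), Matrix.map_add _ (map_add _),
      hYm _ _ _ _ _ mi, hYm _ _ _ _ _ mj, hYm _ _ _ _ _ mk]
  · have := congrArg (fun Z => Matrix.map Z (φ L tp (htp L))) o1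
    rw [Matrix.map_mul, hYm _ _ _ _ _ mi, hYm _ _ _ _ _ mj] at this
    exact this.trans (Matrix.map_zero _ (map_zero _))

end Pool.Agent.H.MP_a87542_al
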